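import Mathlib
import Pool.Agent.Q263.ND.Res

/-! # `Q`-normal but not `Q`-distribution normal numbers have full Hausdorff dimension -/

set_option autoImplicit false

open Filter

namespace Pool.Agent.Results.MP_ba8092_nt.NormalNotDistribution

open Q263.ND.Res

/-- **Answer to Q1: yes.** -/
theorem result (q : ℕ → ℕ) (hq : ∀ n, 1 ≤ n → 2 ≤ q n) (hlim : Tendsto q atTop atTop)
    (hdiv : ∀ k, 1 ≤ k → Tendsto (Qk q k) atTop atTop) :
    dimH (Normal q \ DistNormal q) = 1 :=
  first q hq hlim hdiv

end Pool.Agent.Results.MP_ba8092_nt.NormalNotDistribution
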