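import Mathlib
import Pool.Agent.Q263.ND.Res

/-! # Numbers that are `Q`-normal exactly of the orders `≥ ℓ` have full Hausdorff dimension -/

set_option autoImplicit false

open Filter

namespace Pool.Agent.Results.MP_ba8092_nt.OrdersFromEll

open Q263.ND.Res

/-- **Answer to Q2: yes.** -/
theorem result (q : ℕ → ℕ) (hq : ∀ n, 1 ≤ n → 2 ≤ q n) (hlim : Tendsto q atTop atTop)
    (hdiv : ∀ k, 1 ≤ k → Tendsto (Qk q k) atTop atTop) (l : ℕ) (hl : 1 ≤ l) :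
    dimH ((⋂ j : ℕ, ⋂ _ : l ≤ j, NormalK q j) \ ⋃ j : ℕ, ⋃ _ : 1 ≤ j ∧ j < l, NormalK q j) = 1 :=
  second q hq hlim hdiv l hl

end Pool.Agent.Results.MP_ba8092_nt.OrdersFromEll
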